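import Mathlib
import Pool.Agent.N856.QL.Stm

/-!
# QL/MEAN (helper755 for helper856): the first two moments of sums of indicators of Jacobi symbols
-/

set_option autoImplicit false

open scoped Classical

namespace Pool.Agent.N755.QL

open Pool.Agent.N856.QL

/-- the reduced residues -/
noncomputable def R (M : ℕ) : Finset ℕ := (Finset.range M).filter fun a => a.Coprime M

theorem mem_R {M a : ℕ} : a ∈ R M ↔ a < M ∧ a.Coprime M := by
  unfold R
  rw [Finset.mem_filter, Finset.mem_range]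

theorem card_R (M : ℕ) : (R M).card = Nat.totient M := by
  rw [Nat.totient_eq_card_coprime]
  congr 1
  ext a
  rw [mem_R, Finset.mem_filter, Finset.mem_range, Nat.coprime_comm]

theorem exists_g {q : ℕ} (hq : q.Prime) (hq2 : q ≠ 2) : ∃ g : ℕ, jacobiSym g q = -1 := by
  have : Fact q.Prime := ⟨hq⟩
  have hc : ringChar (ZMod q) ≠ 2 := by
    rw [ZMod.ringChar_zmod_n]
    exact hq2
  obtain ⟨x, hx⟩ := FiniteField.exists_nonsquare hc
  refine ⟨x.val, ?_⟩
  rw [← jacobiSym.legendreSym.to_jacobiSym, legendreSym.eq_neg_one_iff]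
  have : ((x.val : ℤ) : ZMod q) = x := by
    rw [Int.cast_natCast, ZMod.natCast_zmod_val]
  rw [this]
  exact hx

theorem exists_b {M D q D0 : ℕ} (hM : 0 < M) (hD : D ∣ M) (hq : q.Prime) (hq2 : q ≠ 2)
    (hDq : D = q * D0) (hco : Nat.Coprime q D0) : ∃ b : ℕ, b.Coprime M ∧ jacobiSym b D = -1 := by
  have hD0 : D ≠ 0 := fun h => by
    rw [h, zero_dvd_iff] at hD
    omega
  have hD00 : D0 ≠ 0 := by
    rintro rfl
    exact hD0 (by rw [hDq, mul_zero])
  have : NeZero M := ⟨hM.ne'⟩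
  have : NeZero D := ⟨hD0⟩
  have : NeZero q := ⟨hq.ne_zero⟩
  have : NeZero D0 := ⟨hD00⟩
  obtain ⟨g, hg⟩ := exists_g hq hq2
  obtain ⟨b0, h1, h2⟩ := Nat.chineseRemainder hco g 1
  have e1 : jacobiSym b0 q = -1 := by
    rw [← hg]
    refine jacobiSym.mod_left' ?_
    have h3 : b0 % q = g % q := h1
    exact_mod_cast h3
  have e2 : jacobiSym b0 D0 = 1 := by
    rw [← jacobiSym.one_left D0]
    refine jacobiSym.mod_left' ?_
    have h3 : b0 % D0 = 1 % D0 := h2
    exact_mod_cast h3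
  have e3 : jacobiSym b0 D = -1 := by
    rw [hDq, jacobiSym.mul_right, e1, e2, mul_one]
  have hcop : b0.Coprime D := by
    by_contra hcon
    have h4 : jacobiSym b0 D = 0 := by
      rw [jacobiSym.eq_zero_iff]
      refine ⟨hD0, ?_⟩
      rw [Int.gcd_natCast_natCast]
      exact hcon
    rw [e3] at h4
    norm_num at h4
  obtain ⟨v, hv⟩ := ZMod.unitsMap_surjective hD (ZMod.unitOfCoprime b0 hcop)
  refine ⟨(v : ZMod M).val, ZMod.val_coe_unit_coprime v, ?_⟩
  rw [← e3]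
  refine jacobiSym.mod_left' ?_
  have h5 : ((v : ZMod M).val : ZMod D) = (b0 : ZMod D) := by
    have h6 := congrArg (fun t : (ZMod D)ˣ => (t : ZMod D)) hv
    simp only [ZMod.coe_unitOfCoprime] at h6
    rw [← h6, ZMod.unitsMap_val, ZMod.natCast_val]
  have h7 := (ZMod.natCast_eq_natCast_iff' _ _ _).1 h5
  exact_mod_cast h7

theorem sum_zero {M D q D0 : ℕ} (hM : 0 < M) (hD : D ∣ M) (hq : q.Prime) (hq2 : q ≠ 2)
    (hDq : D = q * D0) (hco : Nat.Coprime q D0) : ∑ a ∈ R M, jacobiSym a D = 0 := by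
  obtain ⟨b, hb, hbJ⟩ := exists_b hM hD hq hq2 hDq hco
  have hmaps : ∀ a ∈ R M, a * b % M ∈ R M := by
    intro a ha
    rw [mem_R] at ha ⊢
    refine ⟨Nat.mod_lt _ hM, ?_⟩
    have h1 : (a * b).Coprime M := Nat.Coprime.mul_left ha.2 hb
    rwa [Nat.Coprime, ← Nat.gcd_rec, Nat.gcd_comm]
  have hinj : Set.InjOn (fun a => a * b % M) (R M : Set ℕ) := by
    intro a ha a' ha' h
    have h1 : a * b ≡ a' * b [MOD M] := h
    have h2 := Nat.ModEq.cancel_right_of_coprime (by rw [Nat.gcd_comm]; exact hb) h1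
    exact Nat.ModEq.eq_of_lt_of_lt h2 (mem_R.1 (Finset.mem_coe.1 ha)).1
      (mem_R.1 (Finset.mem_coe.1 ha')).1
  have hsurj : Set.SurjOn (fun a => a * b % M) (R M : Set ℕ) (R M : Set ℕ) :=
    Finset.surjOn_of_injOn_of_card_le _ (fun a ha => hmaps a (Finset.mem_coe.1 ha)) hinj le_rfl
  have h1 : ∑ a ∈ R M, -jacobiSym a D = ∑ a ∈ R M, jacobiSym a D := by
    refine Finset.sum_nbij (fun a => a * b % M) hmaps hinj hsurj fun a _ => ?_
    have h2 : jacobiSym ((a * b % M : ℕ) : ℤ) D = jacobiSym ((a * b : ℕ) : ℤ) D := by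
      refine jacobiSym.mod_left' ?_
      have h3 : a * b % M % D = a * b % D := Nat.mod_mod_of_dvd _ hD
      exact_mod_cast h3
    rw [h2]
    push_cast
    rw [jacobiSym.mul_left, hbJ, mul_neg_one]
  rw [Finset.sum_neg_distrib] at h1
  omega

/-- the indicator -/
noncomputable def ind (d a : ℕ) : ℝ := if jacobiSym (a : ℤ) d = -1 then 1 else 0

theorem ind_eq {M d a : ℕ} (ha : a ∈ R M) (hd : d ∣ M) : ind d a = (1 - (jacobiSym a d : ℝ)) / 2 := by
  unfold ind
  have h1 : (a : ℤ).gcd d = 1 := by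
    rw [Int.gcd_natCast_natCast]
    exact Nat.Coprime.coprime_dvd_right hd (mem_R.1 ha).2
  rcases jacobiSym.eq_one_or_neg_one h1 with h | h
  · rw [h, if_neg (by norm_num)]
    norm_num
  · rw [h, if_pos rfl]
    norm_num

theorem sum_eps {M d : ℕ} (hM : 0 < M) (hd : Squarefree d) (hodd : d % 2 = 1) (h1 : 1 < d)
    (hdM : d ∣ M) : ∑ a ∈ R M, (jacobiSym a d : ℝ) = 0 := by
  obtain ⟨q, hq, d0, hd0⟩ := Nat.exists_prime_and_dvd (show d ≠ 1 by omega)
  have hco : Nat.Coprime q d0 := by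
    rw [hd0] at hd
    exact Nat.coprime_of_squarefree_mul hd
  have h2 := sum_zero hM hdM hq (by rintro rfl; omega) hd0 hco
  have h3 := congrArg (fun t : ℤ => (t : ℝ)) h2
  simpa using h3

theorem sum_eps2 {M d d' : ℕ} (hM : 0 < M) (hd : Squarefree d) (hodd : d % 2 = 1)
    (hd' : Squarefree d') (hodd' : d' % 2 = 1) (hne : d ≠ d')
    (hdM : d * d' ∣ M) : ∑ a ∈ R M, (jacobiSym a d : ℝ) * (jacobiSym a d' : ℝ) = 0 := by
  have key : ∀ d d' : ℕ, Squarefree d → d % 2 = 1 → d' % 2 = 1 → d * d' ∣ M →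
      (∃ q, q.Prime ∧ q ∣ d ∧ ¬ q ∣ d') →
      ∑ a ∈ R M, (jacobiSym a d : ℝ) * (jacobiSym a d' : ℝ) = 0 := by
    rintro d d' hd hodd hodd' hdM ⟨q, hq, ⟨d0, hd0⟩, hq'⟩
    have hq2 : q ≠ 2 := by
      rintro rfl
      omega
    have hco : Nat.Coprime q (d0 * d') := by
      refine Nat.Coprime.mul_right ?_ ((Nat.Prime.coprime_iff_not_dvd hq).2 hq')
      rw [hd0] at hd
      exact Nat.coprime_of_squarefree_mul hd
    have h2 := sum_zero hM hdM hq hq2 (by rw [hd0, mul_assoc]) hco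
    have : NeZero d := ⟨by omega⟩
    have : NeZero d' := ⟨by omega⟩
    have h3 := congrArg (fun t : ℤ => (t : ℝ)) h2
    simp only [jacobiSym.mul_right] at h3
    push_cast at h3
    exact h3
  by_cases h1 : ∃ q, q.Prime ∧ q ∣ d ∧ ¬ q ∣ d'
  · exact key d d' hd hodd hodd' hdM h1
  · have h2 : ∃ q, q.Prime ∧ q ∣ d' ∧ ¬ q ∣ d := by
      by_contra h2
      push Not at h1 h2
      apply hne
      rw [Nat.Squarefree.ext_iff hd hd']
      exact fun p hp => ⟨h1 p hp, h2 p hp⟩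
    have h3 := key d' d hd' hodd' hodd (by rwa [mul_comm]) h2
    rw [← h3]
    exact Finset.sum_congr rfl fun a _ => mul_comm _ _

theorem t_MEAN : Pool.Agent.N856.QL.S_MEAN := by
  intro M hM _ 𝒟 h𝒟 hdvd u
  have hφ : (Nat.totient M : ℝ) ≠ 0 := by
    have := Nat.totient_pos.2 hM
    positivity
  have hdM : ∀ d ∈ 𝒟, d ∣ M := fun d hd => (Finset.dvd_prod_of_mem _ hd).trans hdvd
  have hone : ∑ a ∈ R M, (1 : ℝ) = Nat.totient M := by
    rw [Finset.sum_const, card_R, nsmul_eq_mul, mul_one]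
  have heps : ∀ d ∈ 𝒟, ∑ a ∈ R M, (jacobiSym a d : ℝ) = 0 := fun d hd =>
    sum_eps hM (h𝒟 d hd).1 (h𝒟 d hd).2.1 (h𝒟 d hd).2.2 (hdM d hd)
  have h1 : ∀ d ∈ 𝒟, ∑ a ∈ R M, ind d a = (Nat.totient M : ℝ) / 2 := by
    intro d hd
    rw [Finset.sum_congr rfl fun a ha => ind_eq ha (hdM d hd), ← Finset.sum_div,
      Finset.sum_sub_distrib, hone, heps d hd, sub_zero]
  have h2 : ∀ d ∈ 𝒟, ∀ d' ∈ 𝒟, ∑ a ∈ R M, ind d a * ind d' a =
      (Nat.totient M : ℝ) / 4 + if d = d' then (Nat.totient M : ℝ) / 4 else 0 := by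
    intro d hd d' hd'
    by_cases hdd : d = d'
    · subst hdd
      rw [if_pos rfl]
      have h3 : ∀ a, ind d a * ind d a = ind d a := by
        intro a
        unfold ind
        split_ifs <;> norm_num
      rw [Finset.sum_congr rfl fun a _ => h3 a, h1 d hd]
      ring
    · rw [if_neg hdd, add_zero]
      have hpr : d * d' ∣ M := by
        refine dvd_trans ?_ hdvd
        have h4 := Finset.prod_dvd_prod_of_subset {d, d'} 𝒟 (fun d => d) (by
          intro x hx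
          rw [Finset.mem_insert, Finset.mem_singleton] at hx
          rcases hx with rfl | rfl
          · exact hd
          · exact hd')
        rwa [Finset.prod_pair hdd] at h4
      have h3 : ∀ a ∈ R M, ind d a * ind d' a = (1 - (jacobiSym a d : ℝ) - (jacobiSym a d' : ℝ) +
          (jacobiSym a d : ℝ) * (jacobiSym a d' : ℝ)) / 4 := by
        intro a ha
        rw [ind_eq ha (hdM d hd), ind_eq ha (hdM d' hd')]
        ring
      rw [Finset.sum_congr rfl h3, ← Finset.sum_div, Finset.sum_add_distrib,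
        Finset.sum_sub_distrib, Finset.sum_sub_distrib, hone, heps d hd, heps d' hd',
        sum_eps2 hM (h𝒟 d hd).1 (h𝒟 d hd).2.1 (h𝒟 d' hd').1 (h𝒟 d' hd').2.1 hdd hpr]
      ring
  constructor
  · change (∑ a ∈ R M, ∑ d ∈ 𝒟, u d * ind d a) / (Nat.totient M : ℝ) = _
    rw [Finset.sum_comm, div_eq_iff hφ]
    have h3 : ∀ d ∈ 𝒟, ∑ a ∈ R M, u d * ind d a = u d * ((Nat.totient M : ℝ) / 2) := by
      intro d hd
      rw [← Finset.mul_sum, h1 d hd]
    rw [Finset.sum_congr rfl h3, ← Finset.sum_mul]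
    ring
  · change (∑ a ∈ R M, (∑ d ∈ 𝒟, u d * ind d a) ^ 2) / (Nat.totient M : ℝ) = _
    rw [div_eq_iff hφ]
    have h3 : ∀ a, (∑ d ∈ 𝒟, u d * ind d a) ^ 2 =
        ∑ d ∈ 𝒟, ∑ d' ∈ 𝒟, u d * u d' * (ind d a * ind d' a) := by
      intro a
      rw [sq, Finset.sum_mul_sum]
      exact Finset.sum_congr rfl fun d _ => Finset.sum_congr rfl fun d' _ => by ring
    rw [Finset.sum_congr rfl fun a _ => h3 a, Finset.sum_comm]
    have h4 : ∀ d ∈ 𝒟, ∑ a ∈ R M, ∑ d' ∈ 𝒟, u d * u d' * (ind d a * ind d' a) =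
        ∑ d' ∈ 𝒟, (u d * u d' * ((Nat.totient M : ℝ) / 4) +
          if d = d' then u d * u d' * ((Nat.totient M : ℝ) / 4) else 0) := by
      intro d hd
      rw [Finset.sum_comm]
      refine Finset.sum_congr rfl fun d' hd' => ?_
      rw [← Finset.mul_sum, h2 d hd d' hd', mul_add, mul_ite, mul_zero]
    rw [Finset.sum_congr rfl h4]
    simp only [Finset.sum_add_distrib, Finset.sum_ite_eq]
    have h5 : ∑ d ∈ 𝒟, (if d ∈ 𝒟 then u d * u d * ((Nat.totient M : ℝ) / 4) else 0) =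
        (∑ d ∈ 𝒟, u d ^ 2) * ((Nat.totient M : ℝ) / 4) := by
      rw [Finset.sum_mul]
      refine Finset.sum_congr rfl fun d hd => ?_
      rw [if_pos hd, sq]
    have h6 : ∑ d ∈ 𝒟, ∑ d' ∈ 𝒟, u d * u d' * ((Nat.totient M : ℝ) / 4) =
        (∑ d ∈ 𝒟, u d) ^ 2 * ((Nat.totient M : ℝ) / 4) := by
      rw [sq, Finset.sum_mul_sum, Finset.sum_mul]
      refine Finset.sum_congr rfl fun d _ => ?_
      rw [Finset.sum_mul]
    rw [h5, h6]
    ring

end Pool.Agent.N755.QL
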